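import Mathlib
import Pool.Agent.W2helper71.LF.Points

set_option autoImplicit false

/-!
# There are few candidates for a linear relation between `1`, `e` and `π`

Let `θ` be any real number, in particular `θ = π`. For `w > 3` and `1 < κ < (w - 1) / 2` the inequality
`|a + b e + c θ| ≤ height ^ (-w)` has at most `2 log log N / log κ + C` primitive solutions `(a, b, c)` of
height at most `N`, where `C` depends only on `w` and `κ`, but not on `θ`. A relation
`a + b e + c θ = 0` is a solution for every `w`.
-/

namespace Pool.Agent.Results.MP_58e087_nt.FewCandidates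

open Pool.Agent.W2helper71.LF

theorem result (w κ : ℝ) (hκ : 1 < κ) (hw : κ < (w - 1) / 2) : ∃ C : ℝ, ∀ θ N : ℝ, 3 ≤ N →
    {v : Fin 3 → ℤ | Primitive v ∧ (height v : ℝ) ≤ N ∧
      |form θ v| ≤ (height v : ℝ) ^ (-w)}.Finite ∧
    ({v : Fin 3 → ℤ | Primitive v ∧ (height v : ℝ) ≤ N ∧
      |form θ v| ≤ (height v : ℝ) ^ (-w)}.ncard : ℝ) ≤
      2 * Real.log (Real.log N) / Real.log κ + C :=
  part2 w κ hκ hw

end Pool.Agent.Results.MP_58e087_nt.FewCandidates
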