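import Mathlib
import Pool.Agent.W2helper71.LF.Golden

set_option autoImplicit false

/-!
# Linear relations between `1`, `e` and `π` and the exponent `(3 + √5) / 2`

Let `θ` be any real number, in particular `θ = π`. By Dirichlet's theorem, for every `H` there is a
nonzero integer vector `(a, b, c)` of height at most `H` with `|a + b e + c θ| ≤ C H ^ (-2)`.

(1) If for some `w > (3 + √5) / 2 = 2.618...` and all large `H` there is a nonzero integer vector of height
at most `H` with `|a + b e + c θ| ≤ H ^ (-w)`, then `1, e, θ` are linearly dependent over `ℚ` (and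
conversely). So `1, e, π` are linearly independent if and only if, for every such `w` (or, what turns
out to be the same, for one such `w`), there are arbitrarily large `H` for which there is no such vector.

(2) Unconditionally: for each `w > (3 + √5) / 2` there are arbitrarily large `H` such that for all
integer vectors of height at most `H` either `a + b e + c θ = 0` or `|a + b e + c θ| > H ^ (-w)`.

The proof: consider the sequence `v_0, v_1, ...` of the minimal points of the form. Three consecutive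
ones are linearly independent infinitely often, which gives `X_{n+1} ≥ c X_n ^ (w - 1)` for their
heights. On the other hand elimination of `θ` from `v_n` and `v_{n+1}` and the irrationality measure of
`e` give `X_{n+1} ^ (w - 2) ≤ C X_n log X_{n+1}`.
-/

namespace Pool.Agent.Results.MP_58e087_nt.GoldenScales

open Real Filter Topology Pool.Agent.W2helper71.LF

theorem result (θ : ℝ) :
    ((∃ v : Fin 3 → ℤ, v ≠ 0 ∧ form θ v = 0) ↔
      ∃ w : ℝ, (3 + √5) / 2 < w ∧ ∀ᶠ H : ℝ in atTop, ∃ v : Fin 3 → ℤ, v ≠ 0 ∧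
        (height v : ℝ) ≤ H ∧ |form θ v| ≤ H ^ (-w)) ∧
    (∀ w : ℝ, (3 + √5) / 2 < w → ∀ H₀ : ℝ, ∃ H : ℝ, H₀ ≤ H ∧ ∀ v : Fin 3 → ℤ,
      (height v : ℝ) ≤ H → form θ v = 0 ∨ H ^ (-w) < |form θ v|) := by
  have hmain : ∀ w : ℝ, (3 + √5) / 2 < w → (∀ᶠ H : ℝ in atTop, ∃ v : Fin 3 → ℤ, v ≠ 0 ∧
      (height v : ℝ) ≤ H ∧ |form θ v| ≤ H ^ (-w)) → ∃ v : Fin 3 → ℤ, v ≠ 0 ∧ form θ v = 0 := by
    intro w hw h
    by_contra hcon
    push Not at hcon
    obtain ⟨H₁, hH₁⟩ := h.exists_forall_of_atTop
    exact main hw hcon H₁ hH₁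
  refine ⟨⟨?_, ?_⟩, ?_⟩
  · rintro ⟨v, hv, hf⟩
    refine ⟨(3 + √5) / 2 + 1, by linarith, ?_⟩
    filter_upwards [eventually_ge_atTop (max (height v : ℝ) 0)] with H hH
    refine ⟨v, hv, (le_max_left _ _).trans hH, ?_⟩
    rw [hf, abs_zero]
    exact Real.rpow_nonneg ((le_max_right _ _).trans hH) _
  · rintro ⟨w, hw, h⟩
    exact hmain w hw h
  · intro w hw H₀
    by_cases hdep : ∃ v : Fin 3 → ℤ, v ≠ 0 ∧ form θ v = 0
    · obtain ⟨v₀, hv₀, hf⟩ := hdep
      have hw1 : 1 < w := by
        have := Real.sqrt_nonneg 5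
        linarith
      obtain ⟨H₁, hH₁⟩ := dep_large hv₀ hf hw1
      exact ⟨max H₀ H₁, le_max_left _ _, hH₁ _ (le_max_right _ _)⟩
    · by_contra hcon
      push Not at hcon
      apply hdep
      apply hmain w hw
      filter_upwards [eventually_ge_atTop H₀] with H hH
      obtain ⟨v, hv, hv1, hv2⟩ := hcon H hH
      refine ⟨v, ?_, hv, hv2⟩
      rintro rfl
      apply hv1
      simp [form]

end Pool.Agent.Results.MP_58e087_nt.GoldenScales
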