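import Mathlib
import Pool.Agent.W2helper84.RB.EPi

set_option autoImplicit false

/-!
# Linear independence of `1, e, π` and the joint law of the digits of `e` and `π` in a random base

For every real number `θ`, in particular for `θ = π`: the numbers `1, e, θ` are linearly independent
over `ℚ` if and only if there are arbitrarily large scales `H` at which the digits number
`2, ..., k + 1` of `e` and of `θ` in a random base, chosen among `H` consecutive integers, behave like
independent uniformly distributed variables (in total variation, for the classes modulo `q` equal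
parts, for all `k ≤ (log H) ^ κ` and `q ≤ exp ((log H) ^ β)`, where `3 κ + β < 1`).
-/

namespace Pool.Agent.Results.MP_58e087_nt.JointRandomDigits

/-- the digit number `n ≥ 1` after the point in the base `b` expansion of `x` -/
noncomputable def digit (b : ℕ) (x : ℝ) (n : ℕ) : ℤ := ⌊x * (b : ℝ) ^ n⌋ % (b : ℤ)

/-- the class `c ∈ {0, ..., q - 1}` of this digit `d ∈ {0, ..., b - 1}`: the integral part of
`q d / b`, so that `c b ≤ q d < (c + 1) b` -/
noncomputable def digitClass (q b : ℕ) (x : ℝ) (n : ℕ) : ℤ := ((q : ℤ) * digit b x n) / (b : ℤ)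

/-- The numbers `x 0, ..., x (R - 1)` have random digits at the scale `H`: for every interval
`(a, a + H]` of bases, every `k ≤ (log H) ^ κ`, every `q ≤ exp ((log H) ^ β)` and every set `E` of
`R × k` matrices with entries in `{0, ..., q - 1}`, the number of the bases `b` for which the matrix
of the classes of the digits number `2, ..., k + 1` of the `x i` is in `E` differs from
`H |E| / q ^ (R k)` by at most `H exp (-(log H) ^ β)`. -/
def RandomAt (κ β : ℝ) (H : ℕ) {R : ℕ} (x : Fin R → ℝ) : Prop :=
  ∀ a k q : ℕ, 1 ≤ q → (k : ℝ) ≤ (Real.log H) ^ κ → (q : ℝ) ≤ Real.exp ((Real.log H) ^ β) →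
    ∀ E : Set (Fin R → Fin k → ℤ), (∀ w ∈ E, ∀ i j, 0 ≤ w i j ∧ w i j < q) →
      |(({b : ℕ | a < b ∧ b ≤ a + H ∧
          (fun (i : Fin R) (j : Fin k) => digitClass q b (x i) ((j : ℕ) + 2)) ∈ E}.ncard : ℕ) : ℝ) -
        H * ((E.ncard : ℝ) / (q : ℝ) ^ (R * k))| ≤ H * Real.exp (-(Real.log H) ^ β)

theorem linearIndependent_iff_form (θ : ℝ) : LinearIndependent ℚ ![(1 : ℝ), Real.exp 1, θ] ↔
    ∀ v : Fin 3 → ℤ, v ≠ 0 → Pool.Agent.W2helper71.LF.form θ v ≠ 0 := by
  rw [← LinearIndependent.iff_fractionRing ℤ ℚ, Fintype.linearIndependent_iff]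
  have h1 : ∀ v : Fin 3 → ℤ, ∑ i, v i • (![(1 : ℝ), Real.exp 1, θ] : Fin 3 → ℝ) i =
      Pool.Agent.W2helper71.LF.form θ v := by
    intro v
    rw [Fin.sum_univ_three]
    unfold Pool.Agent.W2helper71.LF.form
    simp [zsmul_eq_mul]
  constructor
  · intro h v hv hf
    apply hv
    funext i
    exact h v (by rw [h1, hf]) i
  · intro h v hv i
    by_contra hi
    refine h v ?_ (by rw [← h1, hv])
    intro h0
    apply hi
    rw [h0]
    rfl

/-- **The criterion.** Let `κ, β > 0` with `3 κ + β < 1` and let `θ` be a real number. Then `1, e, θ`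
are linearly independent over `ℚ` if and only if for arbitrarily large `H` the pair `(e, θ)` has
random digits at the scale `H`.

In particular this holds for `θ = π`: the linear independence of `1, e, π` is equivalent to the
asymptotic independence, along a sequence of scales, of the digits of `e` and `π` in a random
base. -/
theorem result (κ β : ℝ) (hκ : 0 < κ) (hβ : 0 < β) (hκβ : 3 * κ + β < 1) :
    (∀ θ : ℝ, LinearIndependent ℚ ![(1 : ℝ), Real.exp 1, θ] ↔
      ∀ H₁ : ℕ, ∃ H : ℕ, H₁ ≤ H ∧ RandomAt κ β H ![Real.exp 1, θ]) ∧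
    (LinearIndependent ℚ ![(1 : ℝ), Real.exp 1, Real.pi] ↔
      ∀ H₁ : ℕ, ∃ H : ℕ, H₁ ≤ H ∧ RandomAt κ β H ![Real.exp 1, Real.pi]) := by
  have h : ∀ θ : ℝ, LinearIndependent ℚ ![(1 : ℝ), Real.exp 1, θ] ↔
      ∀ H₁ : ℕ, ∃ H : ℕ, H₁ ≤ H ∧ RandomAt κ β H ![Real.exp 1, θ] := fun θ =>
    (linearIndependent_iff_form θ).trans
      (Pool.Agent.W2helper84.RB.criterion θ κ β hκ hβ (by linarith))
  exact ⟨h, h Real.pi⟩

end Pool.Agent.Results.MP_58e087_nt.JointRandomDigits
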