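import Mathlib
import Pool.Agent.W2helper71.LF.Points

set_option autoImplicit false

/-!
# At each scale there is at most one candidate for a linear relation between `1`, `e` and `π`

Let `θ` be any real number, in particular `θ = π`. We consider the small values of the linear form
`a + b e + c θ` at integer vectors `v = (a, b, c)` of height `max (|a|, |b|, |c|)`.

For every `H ≥ 1` all integer vectors of height at most `H` at which the form is smaller in
absolute value than `1 / (32 H ^ 3 (8 log₂ H + 19))` lie on one line through the origin. (A linear
relation `a + b e + c θ = 0` of height at most `H` is such a vector. So a single vector of this kind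
with a nonzero value excludes all relations up to height `H`.)
-/

namespace Pool.Agent.Results.MP_58e087_nt.OneLinePerScale

open Pool.Agent.W2helper71.LF

theorem result (θ H : ℝ) (hH : 1 ≤ H) (u v : Fin 3 → ℤ) (hu : (height u : ℝ) ≤ H)
    (hv : (height v : ℝ) ≤ H)
    (hu' : |form θ u| < 1 / (32 * H ^ 3 * (8 * Real.logb 2 H + 19)))
    (hv' : |form θ v| < 1 / (32 * H ^ 3 * (8 * Real.logb 2 H + 19))) :
    ∃ s t : ℤ, (s ≠ 0 ∨ t ≠ 0) ∧ s • u = t • v :=
  prop_smul (part1 θ H hH u v hu hv hu' hv')

end Pool.Agent.Results.MP_58e087_nt.OneLinePerScale
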